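import Pool.Agent.Helper92.FR.GoalsB

/-!
# Project FR (MP_481f43_lc): packet FR-PAR, the parameters
-/

namespace Pool.Agent.Helper3.FR

open Pool.Agent.Helper92.FR

theorem par : ParStmt := by
  intro κ d0 d n L q X W hd hd0 hnL hq hbound hX hW
  set X0 : ℕ := d0 * (Nat.log 2 L + 2) * q with hX0
  have hlog : Nat.log 2 n ≤ Nat.log 2 L := Nat.log_mono_right hnL
  have hXX0 : X ≤ X0 := by
    rw [hX, hX0]
    exact Nat.mul_le_mul (Nat.mul_le_mul hd0 (Nat.add_le_add_right hlog 2)) le_rfl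
  have hX2 : 2 ≤ X := by
    rw [hX]
    calc 2 = 1 * 2 * 1 := by norm_num
      _ ≤ d * (Nat.log 2 n + 2) * q :=
        Nat.mul_le_mul (Nat.mul_le_mul hd (Nat.le_add_left 2 _)) hq
  have hXd : X ^ d ≤ (L + q) ^ κ := by
    calc X ^ d ≤ X0 ^ d := Nat.pow_le_pow_left hXX0 d
      _ ≤ X0 ^ d0 := Nat.pow_le_pow_right (by omega) hd0
      _ ≤ (L + q) ^ κ := hbound
  have hY1 : 1 ≤ (L + q) ^ κ := Nat.one_le_pow _ _ (by omega)
  have hW' : ((L + q) ^ κ) ^ 114 ≤ W := by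
    rw [hW, ← pow_mul, mul_comm κ 114]
    exact Nat.le_succ _
  constructor
  · have h1 : 2 * (10 ^ 30 * X ^ 12) + 1 ≤ X ^ 114 := by
      have h2 : 1 ≤ X ^ 12 := Nat.one_le_pow _ _ (by omega)
      have h3 : (2 : ℕ) * 10 ^ 30 + 1 ≤ 2 ^ 102 := by norm_num
      have h4 : (2 : ℕ) ^ 102 ≤ X ^ 102 := Nat.pow_le_pow_left hX2 102
      calc 2 * (10 ^ 30 * X ^ 12) + 1 ≤ 2 * (10 ^ 30 * X ^ 12) + X ^ 12 :=
            Nat.add_le_add_left h2 _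
        _ = (2 * 10 ^ 30 + 1) * X ^ 12 := by ring
        _ ≤ 2 ^ 102 * X ^ 12 := Nat.mul_le_mul_right _ h3
        _ ≤ X ^ 102 * X ^ 12 := Nat.mul_le_mul_right _ h4
        _ = X ^ 114 := by rw [← pow_add]
    calc (2 * (10 ^ 30 * X ^ 12) + 1) ^ d ≤ (X ^ 114) ^ d := Nat.pow_le_pow_left h1 d
      _ = (X ^ d) ^ 114 := by rw [← pow_mul, ← pow_mul, mul_comm]
      _ ≤ ((L + q) ^ κ) ^ 114 := Nat.pow_le_pow_left hXd 114
      _ ≤ W := hW'
  · have h4 : 2 ^ (d * 2) ≤ W := by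
      calc 2 ^ (d * 2) = (2 ^ d) ^ 2 := by rw [← pow_mul]
        _ ≤ ((L + q) ^ κ) ^ 2 :=
          Nat.pow_le_pow_left ((Nat.pow_le_pow_left hX2 d).trans hXd) 2
        _ ≤ ((L + q) ^ κ) ^ 114 := Nat.pow_le_pow_right hY1 (by norm_num)
        _ ≤ W := hW'
    have h5 : d * 2 ≤ Nat.log 2 W := Nat.le_log_of_pow_le (by norm_num) h4
    exact (Nat.le_div_iff_mul_le (by norm_num)).2 h5

end Pool.Agent.Helper3.FR
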